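import Mathlib

set_option autoImplicit false

namespace Pool.Agent.Lib.MP_da00a8_an

open Polynomial ComplexConjugate

/-- If the circle of radius `r` carries a compact set `K`, and `z₀ ∉ K` is in the polynomial hull
of `K`, then `z₀` is inside the circle and `K` is the whole circle. -/
lemma circle_full {r : ℝ} (hr : 0 ≤ r) {K : Set ℂ} (hK : IsCompact K)
    (hKr : ∀ a ∈ K, ‖a‖ = r) {z₀ : ℂ}
    (h : ∀ P : Polynomial ℂ, ∀ c : ℝ, 0 < c → (∀ a ∈ K, ‖P.eval a‖ < c) → ‖P.eval z₀‖ ≤ c)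
    (hz : z₀ ∉ K) :
    ‖z₀‖ < r ∧ ∀ w : ℂ, ‖w‖ = r → w ∈ K := by
  have hne : K.Nonempty := by
    by_contra hcon
    rw [Set.not_nonempty_iff_eq_empty] at hcon
    have := h 1 (1 / 2) (by norm_num) (by simp [hcon])
    norm_num at this
  have hle : ‖z₀‖ ≤ r := by
    refine le_of_forall_pos_le_add (fun ε hε => ?_)
    have := h X (r + ε) (by positivity) (fun a ha => by simp [hKr a ha, hε])
    simpa using this
  have hlt : ‖z₀‖ < r := by
    refine lt_of_le_of_ne hle (fun heq => ?_)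
    have hr0 : 0 < r := by
      rcases hr.lt_or_eq with h0 | h0
      · exact h0
      · exfalso
        obtain ⟨a, ha⟩ := hne
        have h1 := hKr a ha
        rw [← h0, norm_eq_zero] at h1
        rw [← h0, norm_eq_zero] at heq
        exact hz (by rw [heq, ← h1]; exact ha)
    -- polynomial conj z0 * X + r^2
    set P : Polynomial ℂ := C (conj z₀) * X + C ((r : ℂ) ^ 2) with hP
    have hPe : ∀ a : ℂ, P.eval a = conj z₀ * a + (r : ℂ) ^ 2 := by intro a; simp [hP]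
    have hlt' : ∀ a ∈ K, ‖P.eval a‖ < 2 * r ^ 2 := by
      intro a ha
      have har := hKr a ha
      have hne' : a ≠ z₀ := fun h' => hz (h' ▸ ha)
      rw [hPe]
      have h1 : ‖conj z₀ * a + (r : ℂ) ^ 2‖ ^ 2 < (2 * r ^ 2) ^ 2 := by
        rw [← Complex.normSq_eq_norm_sq]
        have h2 : 0 < Complex.normSq (a - z₀) := by
          rw [Complex.normSq_pos]; exact sub_ne_zero.2 hne'
        have e1 : Complex.normSq a = r ^ 2 := by rw [Complex.normSq_eq_norm_sq, har]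
        have e2 : Complex.normSq z₀ = r ^ 2 := by rw [Complex.normSq_eq_norm_sq, heq]
        rw [Complex.normSq_apply] at h2 e1 e2 ⊢
        have e3 : ((conj z₀ * a + (r : ℂ) ^ 2).re) = z₀.re * a.re + z₀.im * a.im + r ^ 2 := by
          simp [← Complex.ofReal_pow]
        have e4 : ((conj z₀ * a + (r : ℂ) ^ 2).im) = z₀.re * a.im - z₀.im * a.re := by
          simp [← Complex.ofReal_pow]; ring
        rw [e3, e4]
        simp only [Complex.sub_re, Complex.sub_im] at h2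
        have e5 : (z₀.re * a.re + z₀.im * a.im) ^ 2 + (z₀.re * a.im - z₀.im * a.re) ^ 2
            = r ^ 2 * r ^ 2 := by
          rw [← e1]; nth_rewrite 2 [e1]; rw [← e2]; ring
        have e6 : z₀.re * a.re + z₀.im * a.im < r ^ 2 := by nlinarith
        nlinarith [pow_pos hr0 2]
      exact lt_of_pow_lt_pow_left₀ 2 (by positivity) h1
    obtain ⟨a₀, ha₀, hmax⟩ := hK.exists_isMaxOn hne (f := fun a => ‖P.eval a‖)
      (by fun_prop)
    have hlt0 := hlt' a₀ ha₀
    obtain ⟨c, hc1, hc2⟩ := exists_between hlt0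
    have hc0 : 0 < c := lt_of_le_of_lt (norm_nonneg _) hc1
    have h3 := h P c hc0 (fun a ha => lt_of_le_of_lt (hmax ha) hc1)
    rw [hPe] at h3
    have h4 : conj z₀ * z₀ + (r : ℂ) ^ 2 = ((2 * r ^ 2 : ℝ) : ℂ) := by
      have : conj z₀ * z₀ = ((r ^ 2 : ℝ) : ℂ) := by
        rw [mul_comm, Complex.mul_conj, Complex.normSq_eq_norm_sq, heq]
      rw [this]; push_cast; ring
    rw [h4, Complex.norm_real, Real.norm_of_nonneg (by positivity)] at h3
    linarith
  refine ⟨hlt, fun w hw => ?_⟩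
  by_contra hwK
  have hr0 : 0 < r := lt_of_le_of_lt (norm_nonneg _) hlt
  have hw0 : w ≠ 0 := by
    intro h0; rw [h0, norm_zero] at hw; linarith
  -- distance from `w` to `K`
  have hwa : ∀ a ∈ K, w - a ≠ 0 := fun a ha => sub_ne_zero.2 (fun h' => hwK (h' ▸ ha))
  have hwz : w - z₀ ≠ 0 := by
    refine sub_ne_zero.2 (fun h' => ?_)
    rw [h'] at hw; linarith
  -- bound on r / |w - a|
  obtain ⟨B, hB⟩ : ∃ B : ℝ, ∀ a ∈ K, ‖a / (w - a)‖ ^ 2 ≤ B := by
    have hcont : ContinuousOn (fun a : ℂ => ‖a / (w - a)‖ ^ 2) K := by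
      refine ((continuousOn_id.div (by fun_prop) hwa).norm).pow 2
    obtain ⟨B, hB⟩ := (hK.bddAbove_image hcont)
    exact ⟨B, fun a ha => hB ⟨a, ha, rfl⟩⟩
  have hB0 : 0 ≤ B := by
    obtain ⟨a, ha⟩ := hne
    exact le_trans (by positivity) (hB a ha)
  -- real parts
  have hre : ∀ a ∈ K, (a / (w - a)).re = - (1 / 2) := by
    intro a ha
    have h1 := hwa a ha
    have e1 : Complex.normSq a = r ^ 2 := by rw [Complex.normSq_eq_norm_sq, hKr a ha]
    have e2 : Complex.normSq w = r ^ 2 := by rw [Complex.normSq_eq_norm_sq, hw]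
    have h2 : Complex.normSq (w - a) ≠ 0 := by
      rw [Ne, Complex.normSq_eq_zero]; exact h1
    rw [Complex.div_re]
    rw [← add_div, div_eq_iff h2]
    rw [Complex.normSq_apply] at *
    simp only [Complex.sub_re, Complex.sub_im]
    nlinarith
  have hrez : - (1 / 2) < (z₀ / (w - z₀)).re := by
    have e1 : Complex.normSq z₀ < r ^ 2 := by
      rw [Complex.normSq_eq_norm_sq]
      exact pow_lt_pow_left₀ hlt (norm_nonneg _) two_ne_zero
    have e2 : Complex.normSq w = r ^ 2 := by rw [Complex.normSq_eq_norm_sq, hw]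
    have h2 : 0 < Complex.normSq (w - z₀) := by
      rw [Complex.normSq_pos]; exact hwz
    rw [Complex.div_re]
    rw [← add_div, lt_div_iff₀ h2]
    rw [Complex.normSq_apply] at *
    simp only [Complex.sub_re, Complex.sub_im]
    nlinarith
  set s : ℝ := (z₀ / (w - z₀)).re + 1 / 2 with hs
  have hs0 : 0 < s := by linarith
  obtain ⟨ε, hε0, hεB⟩ : ∃ ε : ℝ, 0 < ε ∧ ε * B < 2 * s := by
    refine ⟨s / (B + 1), by positivity, ?_⟩
    rw [div_mul_eq_mul_div, div_lt_iff₀ (by positivity)]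
    nlinarith
  -- the rational functions
  have hkey : ∀ a ∈ K, ‖1 + (ε : ℂ) * (a / (w - a))‖ < ‖1 + (ε : ℂ) * (z₀ / (w - z₀))‖ := by
    intro a ha
    have hexp : ∀ u : ℂ, ‖1 + (ε : ℂ) * u‖ ^ 2 = 1 + 2 * ε * u.re + ε ^ 2 * ‖u‖ ^ 2 := by
      intro u
      rw [← Complex.normSq_eq_norm_sq, ← Complex.normSq_eq_norm_sq, Complex.normSq_apply,
        Complex.normSq_apply]
      simp
      ring
    refine lt_of_pow_lt_pow_left₀ 2 (norm_nonneg _) ?_
    rw [hexp, hexp, hre a ha]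
    have h1 := hB a ha
    have h2 : ε ^ 2 * ‖a / (w - a)‖ ^ 2 ≤ ε * (ε * B) := by
      rw [pow_two ε, mul_assoc]
      gcongr
    have h3 : 0 ≤ ε ^ 2 * ‖z₀ / (w - z₀)‖ ^ 2 := by positivity
    have h4 : (z₀ / (w - z₀)).re = s - 1 / 2 := by rw [hs]; ring
    rw [h4]
    nlinarith
  -- pass to ρ > 1
  have hev : ∀ᶠ ρ : ℝ in nhds 1, ∀ a ∈ K,
      ‖1 + (ε : ℂ) * (a / ((ρ : ℂ) * w - a))‖ < ‖1 + (ε : ℂ) * (z₀ / ((ρ : ℂ) * w - z₀))‖ := by
    apply hK.eventually_forall_of_forall_eventually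
    intro a ha
    have hc1 : ContinuousAt (fun p : ℝ × ℂ => ‖1 + (ε : ℂ) * (p.2 / ((p.1 : ℂ) * w - p.2))‖)
        (1, a) := by
      have : ContinuousAt (fun p : ℝ × ℂ => p.2 / ((p.1 : ℂ) * w - p.2)) (1, a) := by
        refine ContinuousAt.div (by fun_prop) (by fun_prop) ?_
        simpa using hwa a ha
      fun_prop
    have hc2 : ContinuousAt (fun p : ℝ × ℂ => ‖1 + (ε : ℂ) * (z₀ / ((p.1 : ℂ) * w - z₀))‖)
        (1, a) := by
      have : ContinuousAt (fun p : ℝ × ℂ => z₀ / ((p.1 : ℂ) * w - z₀)) (1, a) := by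
        refine ContinuousAt.div (by fun_prop) (by fun_prop) ?_
        simpa using hwz
      fun_prop
    exact hc1.eventually_lt hc2 (by simpa using hkey a ha)
  obtain ⟨ρ, hρ, hρ1⟩ : ∃ ρ : ℝ, (∀ a ∈ K,
      ‖1 + (ε : ℂ) * (a / ((ρ : ℂ) * w - a))‖ < ‖1 + (ε : ℂ) * (z₀ / ((ρ : ℂ) * w - z₀))‖)
      ∧ 1 < ρ := by
    have h1 : ∀ᶠ ρ : ℝ in nhdsWithin 1 (Set.Ioi 1), ∀ a ∈ K,
      ‖1 + (ε : ℂ) * (a / ((ρ : ℂ) * w - a))‖ < ‖1 + (ε : ℂ) * (z₀ / ((ρ : ℂ) * w - z₀))‖ :=
      hev.filter_mono nhdsWithin_le_nhds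
    exact (h1.and self_mem_nhdsWithin).exists
  set q : ℂ := (ρ : ℂ) * w with hq
  have hqn : ‖q‖ = ρ * r := by
    rw [hq, norm_mul, hw, Complex.norm_real, Real.norm_of_nonneg (by linarith)]
  have hqr : r < ‖q‖ := by rw [hqn]; nlinarith
  have hq0 : q ≠ 0 := by
    intro h0; rw [h0, norm_zero] at hqr; linarith
  set f : ℂ → ℂ := fun a => 1 + (ε : ℂ) * (a / (q - a)) with hf
  have hqa : ∀ a : ℂ, ‖a‖ ≤ r → q - a ≠ 0 := by
    intro a ha h0
    rw [sub_eq_zero] at h0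
    rw [← h0] at ha; linarith
  obtain ⟨a₀, ha₀, hmax⟩ := hK.exists_isMaxOn hne (f := fun a => ‖f a‖) (by
    refine ContinuousOn.norm (ContinuousOn.add continuousOn_const (ContinuousOn.mul
      continuousOn_const (continuousOn_id.div (by fun_prop) (fun a ha => hqa a (hKr a ha).le)))))
  have hlt0 : ‖f a₀‖ < ‖f z₀‖ := hρ a₀ ha₀
  set η : ℝ := (‖f z₀‖ - ‖f a₀‖) / 3 with hη
  have hη0 : 0 < η := by rw [hη]; linarith
  -- the polynomials
  let P : ℕ → Polynomial ℂ := fun n => 1 + C (ε : ℂ) * ∑ k ∈ Finset.range n, (C (q⁻¹) * X) ^ (k + 1)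
  have hPe : ∀ n : ℕ, ∀ a : ℂ, ‖a‖ ≤ r → (P n).eval a = f a - ε * (a / (q - a)) * (a / q) ^ n := by
    intro n a ha
    have h1 := hqa a ha
    have h2 : (P n).eval a = 1 + (ε : ℂ) * ∑ k ∈ Finset.range n, (a / q) ^ (k + 1) := by
      simp only [P, eval_add, eval_one, eval_mul, eval_C, eval_finsetSum, eval_pow, eval_X]
      congr 2
      refine Finset.sum_congr rfl (fun k _ => ?_)
      rw [div_eq_inv_mul]
    rw [h2]
    have h3 : ∑ k ∈ Finset.range n, (a / q) ^ (k + 1) = (a / (q - a)) * (1 - (a / q) ^ n) := by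
      have h4 : a / q ≠ 1 := by
        intro h5
        rw [div_eq_one_iff_eq hq0] at h5
        exact h1 (by rw [h5, sub_self])
      simp_rw [pow_succ]
      rw [← Finset.sum_mul, geom_sum_eq h4]
      have h6 : a / q - 1 ≠ 0 := sub_ne_zero.2 h4
      have h7 : a / (q - a) = - (a / q) / (a / q - 1) := by
        rw [div_eq_div_iff h1 h6]
        field_simp
        ring
      rw [h7]
      field_simp
      ring
    rw [h3, hf]
    ring
  have hsmall : ∀ᶠ n : ℕ in Filter.atTop, ε * (r / (‖q‖ - r)) * (r / ‖q‖) ^ n < η := by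
    have : Filter.Tendsto (fun n : ℕ => ε * (r / (‖q‖ - r)) * (r / ‖q‖) ^ n) Filter.atTop
        (nhds (ε * (r / (‖q‖ - r)) * 0)) := by
      refine Filter.Tendsto.const_mul _ (tendsto_pow_atTop_nhds_zero_of_lt_one (by positivity) ?_)
      rw [div_lt_one (by linarith)]
      exact hqr
    rw [mul_zero] at this
    exact this.eventually_lt_const hη0
  obtain ⟨n, hn⟩ := hsmall.exists
  have herr : ∀ a : ℂ, ‖a‖ ≤ r → ‖(P n).eval a - f a‖ < η := by
    intro a ha
    refine lt_of_le_of_lt ?_ hn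
    rw [hPe n a ha]
    have h1 : f a - ε * (a / (q - a)) * (a / q) ^ n - f a = - (ε * (a / (q - a)) * (a / q) ^ n) := by
      ring
    rw [h1, norm_neg, norm_mul, norm_mul, norm_pow, norm_div, norm_div, Complex.norm_real,
      Real.norm_of_nonneg hε0.le]
    have h2 : ‖q‖ - r ≤ ‖q - a‖ := by
      have := norm_sub_norm_le q a
      linarith
    have h3 : 0 < ‖q‖ - r := by linarith
    gcongr
  have h1 := h (P n) (‖f a₀‖ + η) (by positivity) (fun a ha => by
    have h2 := herr a (hKr a ha).le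
    have h3 : ‖f a‖ ≤ ‖f a₀‖ := hmax ha
    have h4 : ‖(P n).eval a‖ ≤ ‖(P n).eval a - f a‖ + ‖f a‖ := by
      simpa using norm_add_le ((P n).eval a - f a) (f a)
    linarith)
  have h2 := herr z₀ hlt.le
  have h4 : ‖f z₀‖ ≤ ‖(P n).eval z₀‖ + ‖(P n).eval z₀ - f z₀‖ := by
    have := norm_sub_le ((P n).eval z₀) ((P n).eval z₀ - f z₀)
    simpa using this
  have h5 : ‖f z₀‖ = ‖f a₀‖ + 3 * η := by rw [hη]; ring
  linarith

end Pool.Agent.Lib.MP_da00a8_an
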