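import Pool.Agent.Lib.MP_da00a8_an.Circle

set_option autoImplicit false

namespace Pool.Agent.Lib.MP_da00a8_an

open Polynomial ComplexConjugate

/-- Localisation of polynomial hulls at a real value of the second coordinate. -/
lemma localize {E : Set (Fin 2 → ℂ)} (hE : IsCompact E) (hreal : ∀ w ∈ E, (w 1).im = 0)
    {z : Fin 2 → ℂ}
    (hull : ∀ p : MvPolynomial (Fin 2) ℂ, ∀ c : ℝ,
      (∀ w ∈ E, ‖MvPolynomial.eval w p‖ ≤ c) → ‖MvPolynomial.eval z p‖ ≤ c)
    (hz : (z 1).im = 0) (P : Polynomial ℂ) (c : ℝ) (hc : 0 < c)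
    (h : ∀ w ∈ E, w 1 = z 1 → ‖P.eval (w 0)‖ < c) : ‖P.eval (z 0)‖ ≤ c := by
  by_contra hcon
  push Not at hcon
  -- bound for the polynomial and for the distance
  obtain ⟨M, hM0, hM⟩ : ∃ M : ℝ, 0 < M ∧ ∀ w ∈ E, ‖P.eval (w 0)‖ ≤ M := by
    have hcont : ContinuousOn (fun w : Fin 2 → ℂ => ‖P.eval (w 0)‖) E := by fun_prop
    obtain ⟨B, hB⟩ := (hE.bddAbove_image hcont)
    exact ⟨max B 1, by positivity, fun a ha => le_trans (hB ⟨a, ha, rfl⟩) (le_max_left _ _)⟩
  obtain ⟨R, hR0, hR⟩ : ∃ R : ℝ, 0 < R ∧ ∀ w ∈ E, ((w 1).re - (z 1).re) ^ 2 ≤ R := by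
    have hcont : ContinuousOn (fun w : Fin 2 → ℂ => ((w 1).re - (z 1).re) ^ 2) E := by fun_prop
    obtain ⟨B, hB⟩ := (hE.bddAbove_image hcont)
    exact ⟨max B 1, by positivity, fun a ha => le_trans (hB ⟨a, ha, rfl⟩) (le_max_left _ _)⟩
  set Q : Polynomial ℂ := 1 - C ((R : ℂ)⁻¹) * (X - C (z 1)) ^ 2 with hQ
  have hQn : ∀ w ∈ E, ‖Q.eval (w 1)‖ = 1 - ((w 1).re - (z 1).re) ^ 2 / R := by
    intro w hw
    have h1 : Q.eval (w 1) = ((1 - ((w 1).re - (z 1).re) ^ 2 / R : ℝ) : ℂ) := by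
      have e1 : w 1 = (((w 1).re : ℝ) : ℂ) := by
        apply Complex.ext <;> simp [hreal w hw]
      have e2 : z 1 = (((z 1).re : ℝ) : ℂ) := by
        apply Complex.ext <;> simp [hz]
      rw [hQ]
      simp only [eval_sub, eval_one, eval_mul, eval_C, eval_pow, eval_X]
      rw [e1, e2]
      push_cast
      simp only [Complex.ofReal_re]
      ring
    rw [h1, Complex.norm_real, Real.norm_of_nonneg]
    have := hR w hw
    rw [sub_nonneg, div_le_one hR0]
    exact this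
  have hQz : Q.eval (z 1) = 1 := by simp [hQ]
  -- the bad part
  set E' : Set (Fin 2 → ℂ) := E ∩ {w | c ≤ ‖P.eval (w 0)‖} with hE'
  have hE'c : IsCompact E' := by
    refine hE.inter_right ?_
    exact isClosed_le continuous_const (by fun_prop)
  obtain ⟨ρ, hρ0, hρ1, hρ⟩ : ∃ ρ : ℝ, 0 ≤ ρ ∧ ρ < 1 ∧ ∀ w ∈ E', ‖Q.eval (w 1)‖ ≤ ρ := by
    rcases E'.eq_empty_or_nonempty with h0 | h0
    · exact ⟨0, le_rfl, one_pos, by simp [h0]⟩
    · obtain ⟨a₀, ha₀, hmax⟩ := hE'c.exists_isMaxOn h0 (f := fun w => ‖Q.eval (w 1)‖)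
        (by fun_prop)
      refine ⟨‖Q.eval (a₀ 1)‖, norm_nonneg _, ?_, fun w hw => hmax hw⟩
      rw [hQn a₀ ha₀.1]
      have hne : a₀ 1 ≠ z 1 := by
        intro h1
        have := h a₀ ha₀.1 h1
        exact absurd ha₀.2 (not_le.2 this)
      have hne' : (a₀ 1).re - (z 1).re ≠ 0 := by
        intro h1
        apply hne
        apply Complex.ext
        · linarith
        · rw [hreal a₀ ha₀.1, hz]
      have : 0 < ((a₀ 1).re - (z 1).re) ^ 2 / R := by positivity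
      linarith
  have hlim : ∀ᶠ n : ℕ in Filter.atTop, M * ρ ^ n < c := by
    have : Filter.Tendsto (fun n : ℕ => M * ρ ^ n) Filter.atTop (nhds (M * 0)) :=
      Filter.Tendsto.const_mul _ (tendsto_pow_atTop_nhds_zero_of_lt_one hρ0 hρ1)
    rw [mul_zero] at this
    exact this.eventually_lt_const hc
  obtain ⟨n, hn⟩ := hlim.exists
  have hev : ∀ w : Fin 2 → ℂ, MvPolynomial.eval w
      (Polynomial.toMvPolynomial (0 : Fin 2) P * (Polynomial.toMvPolynomial (1 : Fin 2) Q) ^ n)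
      = P.eval (w 0) * (Q.eval (w 1)) ^ n := by
    intro w
    simp [MvPolynomial.eval_toMvPolynomial]
  have h1 := hull (Polynomial.toMvPolynomial (0 : Fin 2) P *
    (Polynomial.toMvPolynomial (1 : Fin 2) Q) ^ n) c (fun w hw => by
      rw [hev, norm_mul, norm_pow]
      by_cases hw' : c ≤ ‖P.eval (w 0)‖
      · have h2 := hρ w ⟨hw, hw'⟩
        calc ‖P.eval (w 0)‖ * ‖Q.eval (w 1)‖ ^ n ≤ M * ρ ^ n := by
              gcongr
              exact hM w hw
          _ ≤ c := hn.le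
      · push Not at hw'
        have h2 : ‖Q.eval (w 1)‖ ≤ 1 := by
          rw [hQn w hw]
          have : 0 ≤ ((w 1).re - (z 1).re) ^ 2 / R := by positivity
          linarith
        calc ‖P.eval (w 0)‖ * ‖Q.eval (w 1)‖ ^ n ≤ ‖P.eval (w 0)‖ * 1 := by
              gcongr
              exact pow_le_one₀ (norm_nonneg _) h2
          _ ≤ c := by linarith)
  rw [hev, hQz, one_pow, mul_one] at h1
  linarith

/-- The second coordinate of a point in the hull of a set with real bounded second coordinates is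
real. -/
lemma im_eq_zero {E : Set (Fin 2 → ℂ)} (hreal : ∀ w ∈ E, (w 1).im = 0)
    (hbd : ∀ w ∈ E, |(w 1).re| ≤ 1) {z : Fin 2 → ℂ}
    (hull : ∀ p : MvPolynomial (Fin 2) ℂ, ∀ c : ℝ,
      (∀ w ∈ E, ‖MvPolynomial.eval w p‖ ≤ c) → ‖MvPolynomial.eval z p‖ ≤ c) :
    (z 1).im = 0 := by
  by_contra hb
  set a : ℝ := (z 1).re with ha
  set b : ℝ := (z 1).im with hbdef
  have hb2 : 0 < b ^ 2 := by positivity
  set R : ℝ := (1 + |a|) ^ 2 / b ^ 2 with hRdef
  have hR0 : 0 < R := by positivity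
  have hRb : R * b ^ 2 = (1 + |a|) ^ 2 := by rw [hRdef]; field_simp
  set γ : ℂ := ⟨a, - (R * b)⟩ with hγ
  have h1 := hull (MvPolynomial.X 1 - MvPolynomial.C γ)
    (Real.sqrt ((1 + |a|) ^ 2 + R ^ 2 * b ^ 2)) (fun w hw => by
      simp only [map_sub, MvPolynomial.eval_X, MvPolynomial.eval_C]
      rw [Complex.norm_def, Complex.normSq_apply]
      apply Real.sqrt_le_sqrt
      simp only [Complex.sub_re, Complex.sub_im, hγ, hreal w hw]
      have h2 : ((w 1).re - a) * ((w 1).re - a) ≤ (1 + |a|) ^ 2 := by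
        have h3 : |(w 1).re - a| ≤ 1 + |a| := by
          calc |(w 1).re - a| ≤ |(w 1).re| + |a| := abs_sub _ _
            _ ≤ 1 + |a| := by linarith [hbd w hw]
        rw [← sq, ← sq_abs]
        gcongr
      nlinarith)
  simp only [map_sub, MvPolynomial.eval_X, MvPolynomial.eval_C] at h1
  rw [Complex.norm_def, Complex.normSq_apply] at h1
  simp only [Complex.sub_re, Complex.sub_im, hγ] at h1
  rw [← ha, ← hbdef] at h1
  have h2 := (Real.sqrt_le_sqrt_iff (by positivity)).1 h1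
  have h3 : (0 : ℝ) < (1 + |a|) ^ 2 := by positivity
  nlinarith

end Pool.Agent.Lib.MP_da00a8_an
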