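import Pool.Agent.Lib.MP_da00a8_an.Localize

set_option autoImplicit false

open scoped Manifold

namespace Pool.Agent.Lib.MP_da00a8_an

open Polynomial ComplexConjugate

/-- If `E` is a compact subset of the round sphere in `ℂ × ℝ` and `z` is in the hull of `E` but not
in `E`, then `E` contains the circle of latitude through the height of `z`. -/
lemma latitude_circle {E : Set (Fin 2 → ℂ)} (hE : IsCompact E)
    (hS : ∀ w ∈ E, (w 1).im = 0 ∧ ‖w 0‖ ^ 2 + (w 1).re ^ 2 = 1)
    {z : Fin 2 → ℂ}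
    (hull : ∀ p : MvPolynomial (Fin 2) ℂ, ∀ c : ℝ,
      (∀ w ∈ E, ‖MvPolynomial.eval w p‖ ≤ c) → ‖MvPolynomial.eval z p‖ ≤ c)
    (hzE : z ∉ E) :
    ∃ t r : ℝ, 0 < r ∧ r ^ 2 + t ^ 2 = 1 ∧ ∀ a : ℂ, ‖a‖ = r → (![a, (t : ℂ)] : Fin 2 → ℂ) ∈ E := by
  have hbd : ∀ w ∈ E, |(w 1).re| ≤ 1 := by
    intro w hw
    have := (hS w hw).2
    rw [← sq_le_one_iff_abs_le_one]
    nlinarith [sq_nonneg ‖w 0‖]
  have hz : (z 1).im = 0 := im_eq_zero (fun w hw => (hS w hw).1) hbd hull
  set t : ℝ := (z 1).re with ht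
  have hz1 : z 1 = (t : ℂ) := by
    apply Complex.ext
    · simp [ht]
    · simp [hz]
  set K : Set ℂ := (fun w : Fin 2 → ℂ => w 0) '' (E ∩ {w | w 1 = z 1}) with hK
  have hKc : IsCompact K := by
    refine IsCompact.image ?_ (continuous_apply 0)
    exact hE.inter_right (isClosed_eq (continuous_apply 1) continuous_const)
  have hKmem : ∀ a : ℂ, a ∈ K → (![a, (t : ℂ)] : Fin 2 → ℂ) ∈ E := by
    rintro a ⟨w, ⟨hw, hw1⟩, rfl⟩
    have : (![w 0, (t : ℂ)] : Fin 2 → ℂ) = w := by
      ext i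
      fin_cases i
      · rfl
      · simp only [Set.mem_ofPred_eq] at hw1
        simp [hw1, hz1]
    rw [this]; exact hw
  have hprop : ∀ P : Polynomial ℂ, ∀ c : ℝ, 0 < c → (∀ a ∈ K, ‖P.eval a‖ < c) →
      ‖P.eval (z 0)‖ ≤ c := by
    intro P c hc h
    refine localize hE (fun w hw => (hS w hw).1) hull hz P c hc (fun w hw hw1 => ?_)
    exact h (w 0) ⟨w, ⟨hw, hw1⟩, rfl⟩
  have hne : K.Nonempty := by
    by_contra hcon
    rw [Set.not_nonempty_iff_eq_empty] at hcon
    have := hprop 1 (1 / 2) (by norm_num) (by simp [hcon])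
    norm_num at this
  have hsq : ∀ a ∈ K, ‖a‖ ^ 2 = 1 - t ^ 2 := by
    intro a ha
    have := (hS _ (hKmem a ha)).2
    simp at this
    linarith
  have hr2 : 0 ≤ 1 - t ^ 2 := by
    obtain ⟨a, ha⟩ := hne
    rw [← hsq a ha]; positivity
  set r : ℝ := Real.sqrt (1 - t ^ 2) with hr
  have hrr : r ^ 2 = 1 - t ^ 2 := Real.sq_sqrt hr2
  have hKr : ∀ a ∈ K, ‖a‖ = r := by
    intro a ha
    rw [hr, ← hsq a ha, Real.sqrt_sq (norm_nonneg _)]
  have hz0 : z 0 ∉ K := by
    intro h
    apply hzE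
    have := hKmem _ h
    have e : (![z 0, (t : ℂ)] : Fin 2 → ℂ) = z := by
      ext i
      fin_cases i
      · rfl
      · simp [hz1]
    rwa [e] at this
  obtain ⟨hlt, hall⟩ := circle_full (Real.sqrt_nonneg _) hKc hKr hprop hz0
  exact ⟨t, r, lt_of_le_of_lt (norm_nonneg _) hlt, by linarith, fun a ha => hKmem a (hall a ha)⟩

/-- Polynomials are holomorphic along holomorphic curves. -/
lemma differentiable_eval (v : ℂ → (Fin 2 → ℂ)) (hv : ∀ i, Differentiable ℂ (fun ζ => v ζ i))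
    (p : MvPolynomial (Fin 2) ℂ) : Differentiable ℂ (fun ζ => MvPolynomial.eval (v ζ) p) := by
  induction p using MvPolynomial.induction_on with
  | C a => simp
  | add p q hp hq =>
    simp only [map_add]
    exact hp.add hq
  | mul_X p i hp =>
    simp only [map_mul, MvPolynomial.eval_X]
    exact hp.mul (hv i)

/-- The real-linear embedding of `ℝ³` into `ℂ²` with image `ℂ × ℝ`. -/
noncomputable def emb : EuclideanSpace ℝ (Fin 3) →L[ℝ] (Fin 2 → ℂ) :=
  LinearMap.toContinuousLinearMap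
    { toFun := fun v => ![⟨v 0, v 1⟩, ((v 2 : ℝ) : ℂ)]
      map_add' := by
        intro x y
        ext i
        fin_cases i
        · apply Complex.ext <;> simp
        · simp
      map_smul' := by
        intro m x
        ext i
        fin_cases i
        · apply Complex.ext <;> simp
        · simp }

lemma emb_zero (v : EuclideanSpace ℝ (Fin 3)) : emb v 0 = ⟨v 0, v 1⟩ := rfl

lemma emb_one (v : EuclideanSpace ℝ (Fin 3)) : emb v 1 = ((v 2 : ℝ) : ℂ) := rfl

lemma emb_injective : Function.Injective emb := by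
  intro v w h
  have h0 := congrFun h 0
  have h1 := congrFun h 1
  rw [emb_zero, emb_zero, Complex.ext_iff] at h0
  rw [emb_one, emb_one, Complex.ofReal_inj] at h1
  simp only at h0
  ext i
  fin_cases i
  · exact h0.1
  · exact h0.2
  · exact h1

end Pool.Agent.Lib.MP_da00a8_an
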